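import Pool.Agent.Helper34.ST.Basic

/-!
# Regularity lemma by iteration of the energy increment
-/

set_option autoImplicit false

namespace Pool.Agent.Helper34.ST

open Finset

section reg

variable {V : Type}

lemma reg_ed_le (A : V → V → Prop) (X Y : Finset V) : ed A X Y ≤ X.card * Y.card := by
  classical
  unfold ed
  rw [← Finset.card_product, ← Set.ncard_coe_finset]
  refine Set.ncard_le_ncard ?_ (Finset.finite_toSet _)
  intro p hp
  simp only [Set.mem_ofPred_eq] at hp
  simp only [Finset.coe_product, Set.mem_prod, Finset.mem_coe]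
  exact ⟨hp.1, hp.2.1⟩

lemma reg_dn_nonneg (A : V → V → Prop) (X Y : Finset V) : 0 ≤ dn A X Y := by
  unfold dn
  positivity

lemma reg_dn_le (A : V → V → Prop) (X Y : Finset V) : dn A X Y ≤ 1 := by
  unfold dn
  refine div_le_one_of_le₀ ?_ (by positivity)
  exact_mod_cast reg_ed_le A X Y

variable [Fintype V]

lemma reg_en_nonneg {κ : Type} (A : V → V → Prop) (c : V → κ) : 0 ≤ en A c := by
  unfold en
  exact Finset.sum_nonneg fun x _ => Finset.sum_nonneg fun y _ => sq_nonneg _

lemma reg_en_le {κ : Type} (A : V → V → Prop) (c : V → κ) : en A c ≤ (Fintype.card V : ℝ) ^ 2 := by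
  unfold en
  have h : ∀ x ∈ (Finset.univ : Finset V),
      ∑ y : V, dn A (cl c (c x)) (cl c (c y)) ^ 2 ≤ (Fintype.card V : ℝ) := by
    intro x _
    have h1 : ∀ y ∈ (Finset.univ : Finset V), dn A (cl c (c x)) (cl c (c y)) ^ 2 ≤ 1 := by
      intro y _
      exact pow_le_one₀ (reg_dn_nonneg _ _ _) (reg_dn_le _ _ _)
    have h2 := Finset.sum_le_card_nsmul _ _ _ h1
    simpa using h2
  have h3 := Finset.sum_le_card_nsmul _ _ _ h
  simp only [Finset.card_univ, nsmul_eq_mul] at h3
  rw [sq]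
  exact h3

lemma reg_cl_comp {κ κ' : Type} (c : V → κ) (f : κ → κ') (hf : Function.Injective f) (i : κ) :
    cl (fun x => f (c x)) (f i) = cl c i := by
  classical
  unfold cl
  ext v
  simp only [Finset.mem_filter, Finset.mem_univ, true_and]
  exact hf.eq_iff

lemma reg_en_comp {κ κ' : Type} (A : V → V → Prop) (c : V → κ) (f : κ → κ')
    (hf : Function.Injective f) : en A (fun x => f (c x)) = en A c := by
  unfold en
  refine Finset.sum_congr rfl fun x _ => Finset.sum_congr rfl fun y _ => ?_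
  rw [reg_cl_comp c f hf, reg_cl_comp c f hf]

/-- number of colours after one step -/
def regG (m : ℕ) : ℕ := m * (2 ^ m * 2 ^ m)

lemma reg_le_G (m : ℕ) : m ≤ regG m := by
  unfold regG
  exact Nat.le_mul_of_pos_right _ (by positivity)

lemma reg_step (h : ST_INC) (A : V → V → Prop) (ε : ℝ) (hε : 0 < ε) (m : ℕ) (c : V → Fin m) :
    ∃ c' : V → Fin (regG m), (∀ x y, c' x = c' y → c x = c y) ∧
      en A c + ε ^ 4 * irr A ε c ≤ en A c' := by
  obtain ⟨c', h1, h2⟩ := h V (Fin m) A ε c hε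
  have hc : Fintype.card (Fin m × (Fin m → Bool) × (Fin m → Bool)) = regG m := by
    simp [regG]
  let e := Fintype.equivFinOfCardEq hc
  refine ⟨fun x => e (c' x), ?_, ?_⟩
  · intro x y hxy
    have h3 := e.injective hxy
    rw [← h1 x, ← h1 y, h3]
  · rw [reg_en_comp A c' e e.injective]
    exact h2

lemma reg_iter (h : ST_INC) (A : V → V → Prop) (ε : ℝ) (hε : 0 < ε) (t : ℕ) (c0 : V → Fin t)
    (s : ℕ) :
    (∃ (m : ℕ) (c : V → Fin m), m ≤ regG^[s] t ∧ (∀ x y, c x = c y → c0 x = c0 y) ∧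
      irr A ε c ≤ ε * (Fintype.card V : ℝ) ^ 2) ∨
    (∃ c : V → Fin (regG^[s] t), (∀ x y, c x = c y → c0 x = c0 y) ∧
      (s : ℝ) * ε ^ 5 * (Fintype.card V : ℝ) ^ 2 ≤ en A c) := by
  induction s with
  | zero =>
    refine Or.inr ⟨c0, fun x y hxy => hxy, ?_⟩
    simpa using reg_en_nonneg A c0
  | succ s ih =>
    rw [Function.iterate_succ_apply']
    rcases ih with ⟨m, c, h1, h2, h3⟩ | ⟨c, h1, h2⟩
    · exact Or.inl ⟨m, c, h1.trans (reg_le_G _), h2, h3⟩
    · by_cases h3 : irr A ε c ≤ ε * (Fintype.card V : ℝ) ^ 2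
      · exact Or.inl ⟨_, c, reg_le_G _, h1, h3⟩
      · obtain ⟨c', h4, h5⟩ := reg_step h A ε hε _ c
        refine Or.inr ⟨c', fun x y hxy => h1 x y (h4 x y hxy), ?_⟩
        push Not at h3
        have h6 : ε ^ 4 * (ε * (Fintype.card V : ℝ) ^ 2) ≤ ε ^ 4 * irr A ε c :=
          mul_le_mul_of_nonneg_left h3.le (by positivity)
        push_cast
        nlinarith [h6, h5, h2]

lemma reg_init (t : ℕ) (ht : 1 ≤ t) :
    ∃ c0 : V → Fin t, ∀ i, (cl c0 i).card ≤ Fintype.card V / t + 1 := by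
  classical
  let q := Fintype.card V / t + 1
  have hq : 0 < q := Nat.succ_pos _
  have hlt : ∀ k, k < Fintype.card V → k / q < t := by
    intro k hk
    rw [Nat.div_lt_iff_lt_mul hq]
    calc k < Fintype.card V := hk
      _ ≤ t * q := (Nat.lt_mul_div_succ _ ht).le
  let e := Fintype.equivFin V
  refine ⟨fun v => ⟨(e v).val / q, hlt _ (e v).isLt⟩, ?_⟩
  intro i
  have h1 : ∀ v ∈ cl (fun v => (⟨(e v).val / q, hlt _ (e v).isLt⟩ : Fin t)) i,
      (e v).val % q ∈ Finset.range q := by
    intro v _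
    exact Finset.mem_range.2 (Nat.mod_lt _ hq)
  have h2 := Finset.card_le_card_of_injOn (fun v => (e v).val % q) h1 ?_
  · simpa using h2
  · intro v hv w hw hvw
    simp only [cl, Finset.coe_filter, Finset.mem_univ, true_and, Set.mem_ofPred_eq] at hv hw
    have h3 : (e v).val / q = (e w).val / q := by
      have := hv.trans hw.symm
      exact congrArg Fin.val this
    simp only at hvw
    have h4 : (e v).val = (e w).val := by
      rw [← Nat.div_add_mod (e v).val q, ← Nat.div_add_mod (e w).val q, h3, hvw]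
    exact e.injective (Fin.ext h4)

lemma reg_sum_card {m : ℕ} (c : V → Fin m) : ∑ i, ((cl c i).card : ℝ) = Fintype.card V := by
  classical
  have h1 := Finset.card_eq_sum_card_fiberwise (s := (Finset.univ : Finset V))
    (t := (Finset.univ : Finset (Fin m))) (f := c) (fun x _ => Finset.mem_univ _)
  rw [Finset.card_univ] at h1
  rw [h1]
  push_cast
  refine Finset.sum_congr rfl fun i _ => ?_
  unfold cl
  norm_cast
  congr 1
  ext a
  simp only [Finset.mem_filter, Finset.mem_univ, true_and]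

lemma reg_sum_sq {m t : ℕ} (c : V → Fin m) (c0 : V → Fin t) (q : ℝ) (hq : 0 ≤ q)
    (h0 : ∀ i, ((cl c0 i).card : ℝ) ≤ q) (hr : ∀ x y, c x = c y → c0 x = c0 y) :
    ∑ i, ((cl c i).card : ℝ) ^ 2 ≤ q * Fintype.card V := by
  classical
  have h1 : ∀ i, ((cl c i).card : ℝ) ≤ q := by
    intro i
    rcases (cl c i).eq_empty_or_nonempty with h | ⟨v, hv⟩
    · rw [h]
      simpa using hq
    · refine le_trans ?_ (h0 (c0 v))
      norm_cast
      refine Finset.card_le_card ?_
      intro w hw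
      simp only [cl, Finset.mem_filter, Finset.mem_univ, true_and] at hv hw ⊢
      exact hr _ _ (hw.trans hv.symm)
  rw [← reg_sum_card c, Finset.mul_sum]
  refine Finset.sum_le_sum fun i _ => ?_
  rw [sq]
  exact mul_le_mul_of_nonneg_right (h1 i) (by positivity)

end reg

theorem st_REG (h1 : ST_INC) : ST_REG := by
  intro ε hε
  obtain ⟨s, hs⟩ := exists_nat_gt (1 / ε ^ 5)
  have hs' : 1 < (s : ℝ) * ε ^ 5 := by
    rwa [div_lt_iff₀ (by positivity)] at hs
  obtain ⟨t0, ht0⟩ := exists_nat_gt (2 / ε)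
  have ht1 : 1 ≤ t0 := by
    have : (0 : ℝ) < t0 := lt_trans (by positivity) ht0
    exact_mod_cast this
  have hM : t0 ≤ regG^[s] t0 := by
    clear hs hs'
    induction s with
    | zero => exact le_rfl
    | succ s ih =>
      rw [Function.iterate_succ_apply']
      exact ih.trans (reg_le_G _)
  refine ⟨regG^[s] t0, ?_⟩
  intro V _ A hV
  have hn : (t0 : ℝ) ≤ Fintype.card V := by exact_mod_cast hM.trans hV
  have hn2 : 2 / ε < Fintype.card V := lt_of_lt_of_le ht0 hn
  have hn0 : (0 : ℝ) < Fintype.card V := lt_trans (by positivity) hn2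
  obtain ⟨c0, hc0⟩ := reg_init (V := V) t0 ht1
  rcases reg_iter h1 A ε hε t0 c0 s with ⟨m, c, h2, h3, h4⟩ | ⟨c, h2, h3⟩
  · refine ⟨m, c, h2, h4, ?_⟩
    have h5 : ∀ i, ((cl c0 i).card : ℝ) ≤ (Fintype.card V : ℝ) / t0 + 1 := by
      intro i
      have h6 : ((cl c0 i).card : ℝ) ≤ ((Fintype.card V / t0 + 1 : ℕ) : ℝ) := by
        exact_mod_cast hc0 i
      have h7 : ((Fintype.card V / t0 : ℕ) : ℝ) ≤ (Fintype.card V : ℝ) / t0 := Nat.cast_div_le
      push_cast at h6
      linarith
    have h6 := reg_sum_sq c c0 _ (by positivity) h5 h3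
    refine h6.trans ?_
    have ht0' : (0 : ℝ) < t0 := by exact_mod_cast ht1
    have h7 : (Fintype.card V : ℝ) / t0 ≤ ε / 2 * Fintype.card V := by
      rw [div_le_iff₀ ht0']
      have h8 : 1 ≤ ε / 2 * t0 := by
        rw [div_lt_iff₀ hε] at ht0
        linarith
      nlinarith
    have h8 : 1 ≤ ε / 2 * Fintype.card V := by
      rw [div_lt_iff₀ hε] at hn2
      linarith
    nlinarith
  · exfalso
    have h4 := h3.trans (reg_en_le A c)
    have h5 : (0 : ℝ) < (Fintype.card V : ℝ) ^ 2 := by positivity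
    nlinarith

end Pool.Agent.Helper34.ST
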